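import Pool.Agent.Lib.MP_7b9e54_ag.IncGlobal
import Pool.Agent.Lib.MP_7b9e54_ag.Abstract

/-!
# The point-plane incidence variety in `ℙ³` is not `𝒟`-affine in any positive characteristic

Write `b = (x₀, x₁, y₂, y₃)`, `U_l = {b_j ≠ 0 for j ≠ l}` and `S = {b_j ≠ 0 for all j}`.
The `𝒟`-module `𝒦 = ker(⨁_l 𝒪_{U_l} → 𝒪_S)` is quasi-coherent, the map is locally surjective
(thanks to the equation `∑ x_i y_i = 0`), but it is not surjective on global sections, so that
`H¹(X, 𝒦) ≠ 0`.
-/

open AlgebraicGeometry CategoryTheory MP7b9e54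

universe u

namespace Pool.Agent.Results.MP_7b9e54_ag.NotDAffine

/-- For every prime `p` and every field `k` of characteristic `p` there is a quasi-coherent
`𝒟`-module `M` on the incidence variety with `H¹(X, M) ≠ 0`. -/
theorem exists_H1_ne_zero (p : ℕ) [Fact p.Prime] (k : Type u) [Field k] [CharP k p] :
    ∃ M : DMod p (Inc k), IsQCoh M ∧ ¬ Subsingleton (cohomology M 1) := by
  obtain ⟨θ, hθ⟩ := exists_not_mem (k := k) p
  exact not_isDAffine p (Inc k) (UT k) (US k) (US_le_UT k)
    (fun l => Proj.isAffineOpen_basicOpen (incGrading k) (fT l) (fT_mem l) (by norm_num))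
    (Proj.isAffineOpen_basicOpen (incGrading k) gS gS_mem (by norm_num))
    locSurj_Inc θ hθ

/-- For every prime `p` and every algebraically closed field `k` of characteristic `p`, the
incidence variety of points and planes in `ℙ³` over `k` is not `𝒟`-affine. -/
theorem result (p : ℕ) [Fact p.Prime] (k : Type u) [Field k] [IsAlgClosed k] [CharP k p] :
    ¬ IsDAffine p (Inc k) := by
  intro h
  obtain ⟨M, hM, h1⟩ := exists_H1_ne_zero p k
  exact h1 ((h M hM).2 1 one_pos)

end Pool.Agent.Results.MP_7b9e54_ag.NotDAffine
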